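import Mathlib

open Filter Topology
open scoped ENNReal

namespace Pool.Agent.Results.MP_88a444_an.FullAnswer

universe u v

section Definitions

variable (𝕜 : Type*) [RCLike 𝕜]

/-- `X` is an `ℓ₁`-predual over `𝕜`: its (strong, i.e. normed) dual is linearly isometric
to `ℓ₁(ℕ, 𝕜)`. -/
def IsL1Predual (X : Type*) [NormedAddCommGroup X] [NormedSpace 𝕜 X] : Prop :=
  Nonempty (StrongDual 𝕜 X ≃ₗᵢ[𝕜] lp (fun _ : ℕ => 𝕜) 1)

variable {𝕜}

/-- `T` is range strongly exposing: there is `x₀` in the unit sphere such that every sequence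
`x n` of the closed unit ball with `‖T (x n)‖ → ‖T‖` has a subsequence with
`T (x (σ n)) → c • T x₀` for some scalar `c` of modulus one. -/
def IsRSE {X Y : Type*} [NormedAddCommGroup X] [NormedSpace 𝕜 X] [NormedAddCommGroup Y]
    [NormedSpace 𝕜 Y] (T : X →L[𝕜] Y) : Prop :=
  ∃ x₀ : X, ‖x₀‖ = 1 ∧ ∀ x : ℕ → X, (∀ n, ‖x n‖ ≤ 1) →
    Tendsto (fun n => ‖T (x n)‖) atTop (𝓝 ‖T‖) →
    ∃ σ : ℕ → ℕ, StrictMono σ ∧ ∃ c : 𝕜, ‖c‖ = 1 ∧
      Tendsto (fun n => T (x (σ n))) atTop (𝓝 (c • T x₀))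

variable (𝕜)

/-- The space `𝒦(X, Y)` of compact operators has the BPBp-RSE. -/
def CompactBPBpRSE (X Y : Type*) [NormedAddCommGroup X] [NormedSpace 𝕜 X]
    [NormedAddCommGroup Y] [NormedSpace 𝕜 Y] : Prop :=
  ∀ ε : ℝ, 0 < ε → ∃ η : ℝ, 0 < η ∧ η < ε ∧
    ∀ T : X →L[𝕜] Y, IsCompactOperator T → ‖T‖ = 1 → ∀ x : X, ‖x‖ = 1 → 1 - η < ‖T x‖ →
      ∃ S : X →L[𝕜] Y, IsRSE S ∧ IsCompactOperator S ∧ ∃ x₀ : X, ‖x₀‖ = 1 ∧
        ‖S‖ = 1 ∧ ‖S x₀‖ = 1 ∧ ‖S - T‖ < ε ∧ ‖x - x₀‖ < ε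

/-- Complex uniform convexity of a complex normed space `Y`: for every `ε > 0` there is `δ > 0`
such that `‖y₀ + w • y₁‖ ≤ 1` for all `|w| = 1` and `‖y₁‖ > ε` imply `‖y₀‖ < 1 - δ`. -/
def CUniformlyConvex (Y : Type*) [NormedAddCommGroup Y] [NormedSpace ℂ Y] : Prop :=
  ∀ ε : ℝ, 0 < ε → ∃ δ : ℝ, 0 < δ ∧ ∀ y₀ y₁ : Y,
    (∀ w : ℂ, ‖w‖ = 1 → ‖y₀ + w • y₁‖ ≤ 1) → ε < ‖y₁‖ → ‖y₀‖ < 1 - δ

end Definitions

section Core

variable {𝕜 : Type*} [RCLike 𝕜] {X Y : Type*} [NormedAddCommGroup X] [NormedSpace 𝕜 X]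
  [NormedAddCommGroup Y] [NormedSpace 𝕜 Y]

/-- The `n`-th coordinate functional of an `ℓ₁`-predual. -/
noncomputable def ev (Φ : StrongDual 𝕜 X ≃ₗᵢ[𝕜] lp (fun _ : ℕ => 𝕜) 1) (n : ℕ) :
    StrongDual 𝕜 X :=
  Φ.symm (lp.single 1 n (1 : 𝕜))

variable (Φ : StrongDual 𝕜 X ≃ₗᵢ[𝕜] lp (fun _ : ℕ => 𝕜) 1)

lemma norm_ev (n : ℕ) : ‖ev Φ n‖ = 1 := by
  simp [ev]

lemma norm_ev_apply_le (n : ℕ) (x : X) : ‖ev Φ n x‖ ≤ ‖x‖ := by
  have := (ev Φ n).le_opNorm x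
  rwa [norm_ev, one_mul] at this

lemma Phi_ev (n : ℕ) : Φ (ev Φ n) = lp.single 1 n (1 : 𝕜) := by
  simp [ev]

lemma hasSum_eval (f : StrongDual 𝕜 X) (x : X) :
    HasSum (fun n => (Φ f) n * ev Φ n x) (f x) := by
  have h1 : HasSum (fun i : ℕ => lp.single 1 i ((Φ f) i : 𝕜)) (Φ f) :=
    lp.hasSum_single (by simp) (Φ f)
  have h2 := h1.mapL (Φ.symm.toContinuousLinearEquiv.toContinuousLinearMap)
  have h3 := h2.mapL ((ContinuousLinearMap.apply 𝕜 𝕜 x))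
  have h4 : ∀ i, (ContinuousLinearMap.apply 𝕜 𝕜 x)
      ((Φ.symm.toContinuousLinearEquiv.toContinuousLinearMap)
        (lp.single 1 i ((Φ f) i : 𝕜))) = (Φ f) i * ev Φ i x := by
    intro i
    have : lp.single (E := fun _ : ℕ => 𝕜) 1 i ((Φ f) i : 𝕜)
        = (Φ f) i • lp.single (E := fun _ : ℕ => 𝕜) 1 i (1 : 𝕜) := by
      rw [← lp.single_smul]; simp
    rw [this]
    simp [ev]
  simp only [h4] at h3
  simpa using h3

lemma summable_norm_coord (a : lp (fun _ : ℕ => 𝕜) 1) : Summable (fun n => ‖a n‖) := by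
  have := lp.hasSum_norm (p := 1) (by simp) a
  simpa using this.summable

lemma tsum_norm_coord (a : lp (fun _ : ℕ => 𝕜) 1) : ∑' n, ‖a n‖ = ‖a‖ := by
  have := lp.hasSum_norm (p := 1) (by simp) a
  simpa using this.tsum_eq

/-- Helly-type lemma: finitely many coordinates can be prescribed approximately. -/
lemma helly (N : ℕ) (c : ℕ → 𝕜) (hc : ∀ n, ‖c n‖ ≤ 1) (κ : ℝ) (hκ : 0 < κ) :
    ∃ x : X, ‖x‖ ≤ 1 ∧ ∀ n < N, ‖ev Φ n x - c n‖ < κ := by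
  let L : X →L[𝕜] (Fin N → 𝕜) := ContinuousLinearMap.pi (fun i : Fin N => ev Φ i)
  let C : Set (Fin N → 𝕜) := L '' Metric.closedBall 0 1
  have hC : Convex ℝ C := by
    intro p hp q hq a b ha hb hab
    obtain ⟨x, hx, rfl⟩ := hp
    obtain ⟨y, hy, rfl⟩ := hq
    refine ⟨(a : 𝕜) • x + (b : 𝕜) • y, ?_, ?_⟩
    · rw [mem_closedBall_zero_iff] at *
      calc ‖(a : 𝕜) • x + (b : 𝕜) • y‖ ≤ ‖(a : 𝕜) • x‖ + ‖(b : 𝕜) • y‖ := norm_add_le _ _
        _ = a * ‖x‖ + b * ‖y‖ := by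
          rw [norm_smul, norm_smul]
          simp [abs_of_nonneg ha, abs_of_nonneg hb]
        _ ≤ a * 1 + b * 1 := by gcongr
        _ = 1 := by linarith
    · rw [map_add, map_smul, map_smul]
      ext i
      simp [RCLike.real_smul_eq_coe_mul]
  let c' : Fin N → 𝕜 := fun i => c i
  by_cases hmem : c' ∈ closure C
  · rw [Metric.mem_closure_iff] at hmem
    obtain ⟨p, ⟨x, hx, rfl⟩, hp⟩ := hmem κ hκ
    refine ⟨x, by simpa using hx, fun n hn => ?_⟩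
    have h1 := dist_le_pi_dist c' (L x) ⟨n, hn⟩
    have h2 : dist (c' ⟨n, hn⟩) (L x ⟨n, hn⟩) = ‖ev Φ n x - c n‖ := by
      rw [dist_comm, dist_eq_norm]; rfl
    rw [← h2]
    exact lt_of_le_of_lt h1 hp
  · exfalso
    obtain ⟨f, u, hf1, hf2⟩ := RCLike.geometric_hahn_banach_closed_point (𝕜 := 𝕜)
      hC.closure isClosed_closure hmem
    -- coefficients of f
    let b : ℕ → 𝕜 := fun n => if h : n < N then f (Pi.single ⟨n, h⟩ 1) else 0
    have hfb : ∀ y : Fin N → 𝕜, f y = ∑ i : Fin N, b i * y i := by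
      intro y
      have hy : y = ∑ i : Fin N, y i • (Pi.single i (1 : 𝕜) : Fin N → 𝕜) := by
        ext j
        simp [Finset.sum_apply, Pi.single_apply]
      conv_lhs => rw [hy]
      rw [map_sum]
      refine Finset.sum_congr rfl fun i _ => ?_
      simp [b, mul_comm]
    let g : StrongDual 𝕜 X := f.comp L
    have hg : g = ∑ i : Fin N, b i • ev Φ i := by
      ext x
      simp only [g, ContinuousLinearMap.comp_apply, hfb]
      simp [L]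
    have hgnorm : ‖g‖ = ∑ i : Fin N, ‖b i‖ := by
      rw [← Φ.norm_map g, hg, map_sum]
      have h1 : ∑ i : Fin N, Φ (b i • ev Φ i)
          = ∑ n ∈ Finset.range N, lp.single (E := fun _ : ℕ => 𝕜) 1 n (b n) := by
        rw [Finset.sum_range (fun n => lp.single (E := fun _ : ℕ => 𝕜) 1 n (b n))]
        refine Finset.sum_congr rfl fun i _ => ?_
        rw [map_smul, Phi_ev, ← lp.single_smul]
        simp
      rw [h1]
      have h2 := lp.norm_sum_single (E := fun _ : ℕ => 𝕜) (p := 1) (by simp) b (Finset.range N)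
      simp only [ENNReal.toReal_one, Real.rpow_one] at h2
      rw [h2, Finset.sum_range]
    have hg_le : ‖g‖ ≤ u := by
      have hu : 0 ≤ u := by
        have : (0 : Fin N → 𝕜) ∈ closure C :=
          subset_closure ⟨0, by simp, by simp⟩
        have h0 := hf1 _ this
        simp at h0
        exact h0.le
      refine ContinuousLinearMap.opNorm_le_bound _ hu fun x => ?_
      by_cases hx : x = 0
      · simp [hx]
      -- rotate
      have hxn : 0 < ‖x‖ := norm_pos_iff.mpr hx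
      obtain ⟨w, hw1, hw2⟩ : ∃ w : 𝕜, ‖w‖ = 1 ∧ w * g x = (‖g x‖ : 𝕜) := by
        by_cases hgx : g x = 0
        · exact ⟨1, by simp, by simp [hgx]⟩
        · refine ⟨(‖g x‖ : 𝕜) / g x, ?_, ?_⟩
          · rw [norm_div]
            simp [hgx]
          · field_simp
      have hmemC : L ((w * ((‖x‖⁻¹ : ℝ) : 𝕜)) • x) ∈ closure C := by
        refine subset_closure ⟨_, ?_, rfl⟩
        rw [mem_closedBall_zero_iff, norm_smul, norm_mul, hw1]
        simp [hxn.ne']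
      have h3 := hf1 _ hmemC
      have h4 : f (L ((w * ((‖x‖⁻¹ : ℝ) : 𝕜)) • x)) = ((‖x‖⁻¹ * ‖g x‖ : ℝ) : 𝕜) := by
        have : f (L ((w * ((‖x‖⁻¹ : ℝ) : 𝕜)) • x)) = (w * ((‖x‖⁻¹ : ℝ) : 𝕜)) * g x := by
          simp [g]
        rw [this]
        calc w * ((‖x‖⁻¹ : ℝ) : 𝕜) * g x = ((‖x‖⁻¹ : ℝ) : 𝕜) * (w * g x) := by ring
          _ = _ := by rw [hw2]; push_cast; ring
      rw [h4, RCLike.ofReal_re] at h3
      have h5 : ‖g x‖ < u * ‖x‖ := by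
        have := (mul_lt_mul_iff_of_pos_right hxn).mpr h3
        calc ‖g x‖ = ‖x‖⁻¹ * ‖g x‖ * ‖x‖ := by field_simp
          _ < u * ‖x‖ := this
      exact h5.le
    have h6 : RCLike.re (f c') ≤ ∑ i : Fin N, ‖b i‖ := by
      rw [hfb]
      calc RCLike.re (∑ i : Fin N, b i * c' i) ≤ ‖∑ i : Fin N, b i * c' i‖ := RCLike.re_le_norm _
        _ ≤ ∑ i : Fin N, ‖b i * c' i‖ := norm_sum_le _ _
        _ ≤ ∑ i : Fin N, ‖b i‖ := by
          refine Finset.sum_le_sum fun i _ => ?_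
          rw [norm_mul]
          exact mul_le_of_le_one_right (norm_nonneg _) (hc i)
    rw [hgnorm] at hg_le
    linarith

/-- Limits along near-coordinates: if `‖x k‖ ≤ 1` and the first `k` coordinates of `x k` are
`1/(k+1)`-close to `c`, then `f (x k) → ∑ (Φ f) n * c n` for every functional `f`. -/
lemma tendsto_eval (c : ℕ → 𝕜) (x : ℕ → X) (hx : ∀ k, ‖x k‖ ≤ 1)
    (hxc : ∀ k, ∀ n < k, ‖ev Φ n (x k) - c n‖ < 1 / ((k : ℝ) + 1)) (f : StrongDual 𝕜 X) :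
    Tendsto (fun k => f (x k)) atTop (𝓝 (∑' n, (Φ f) n * c n)) := by
  have h1 : ∀ k, f (x k) = ∑' n, (Φ f) n * ev Φ n (x k) := fun k => (hasSum_eval Φ f (x k)).tsum_eq.symm
  simp_rw [h1]
  refine tendsto_tsum_of_dominated_convergence (bound := fun n => ‖(Φ f) n‖)
    (summable_norm_coord (Φ f)) ?_ ?_
  · intro n
    refine Tendsto.const_mul _ ?_
    rw [tendsto_iff_norm_sub_tendsto_zero]
    have h2 : Tendsto (fun k : ℕ => 1 / ((k : ℝ) + 1)) atTop (𝓝 0) :=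
      tendsto_one_div_add_atTop_nhds_zero_nat
    refine squeeze_zero' (Eventually.of_forall fun _ => norm_nonneg _) ?_ h2
    filter_upwards [eventually_gt_atTop n] with k hk
    exact (hxc k n hk).le
  · refine Eventually.of_forall fun k n => ?_
    rw [norm_mul]
    refine mul_le_of_le_one_right (norm_nonneg _) ?_
    exact (norm_ev_apply_le Φ n (x k)).trans (hx k)

/-- If `g` attains its norm-one value at `x₀` and a coordinate of `x₀` has modulus `< 1`, the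
corresponding coordinate of `g` vanishes. -/
lemma coord_eq_zero (g : StrongDual 𝕜 X) (hg : ‖g‖ ≤ 1) (x₀ : X) (hx₀ : ‖x₀‖ ≤ 1)
    (hgx : g x₀ = 1) (m : ℕ) (hm : ‖ev Φ m x₀‖ < 1) : (Φ g) m = 0 := by
  by_contra hne
  have hpos : 0 < ‖(Φ g) m‖ := norm_pos_iff.mpr hne
  have hs := summable_norm_coord (Φ g)
  have h1 : (1 : ℝ) ≤ ∑' n, ‖(Φ g) n * ev Φ n x₀‖ := by
    have h2 : ‖g x₀‖ = 1 := by rw [hgx]; simp
    rw [← h2, ← (hasSum_eval Φ g x₀).tsum_eq]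
    refine norm_tsum_le_tsum_norm ?_
    refine Summable.of_nonneg_of_le (fun _ => norm_nonneg _) (fun n => ?_) hs
    rw [norm_mul]
    exact mul_le_of_le_one_right (norm_nonneg _) ((norm_ev_apply_le Φ n x₀).trans hx₀)
  have h2 : ∑' n, ‖(Φ g) n * ev Φ n x₀‖ < ∑' n, ‖(Φ g) n‖ := by
    refine Summable.tsum_lt_tsum (i := m) (fun n => ?_) ?_ ?_ hs
    · rw [norm_mul]
      exact mul_le_of_le_one_right (norm_nonneg _) ((norm_ev_apply_le Φ n x₀).trans hx₀)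
    · rw [norm_mul]
      exact mul_lt_of_lt_one_right hpos hm
    · refine Summable.of_nonneg_of_le (fun _ => norm_nonneg _) (fun n => ?_) hs
      rw [norm_mul]
      exact mul_le_of_le_one_right (norm_nonneg _) ((norm_ev_apply_le Φ n x₀).trans hx₀)
  rw [tsum_norm_coord, Φ.norm_map] at h2
  linarith

/-- The key step: if `S` is compact, range strongly exposing, of norm one, attains its norm at
`x₀` and the `m`-th coordinate of `x₀` has modulus `< 1`, then the `m`-th coordinate of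
`f ∘ S` vanishes for every functional `f` on `Y`. -/
lemma key (S : X →L[𝕜] Y) (hS : IsRSE S) (hSc : IsCompactOperator S) (hS1 : ‖S‖ = 1)
    (x₀ : X) (hx₀ : ‖x₀‖ = 1) (hSx₀ : ‖S x₀‖ = 1) (m : ℕ) (hm : ‖ev Φ m x₀‖ < 1)
    (f : StrongDual 𝕜 Y) : (Φ (f.comp S)) m = 0 := by
  classical
  -- norming functional
  obtain ⟨ψ, hψ1, hψ2⟩ := exists_dual_vector'' 𝕜 (S x₀)
  have hψ2' : ψ (S x₀) = 1 := by rw [hψ2, hSx₀]; simp
  have hcoord : (Φ (ψ.comp S)) m = 0 := by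
    refine coord_eq_zero Φ (ψ.comp S) ?_ x₀ hx₀.le hψ2' m hm
    calc ‖ψ.comp S‖ ≤ ‖ψ‖ * ‖S‖ := ContinuousLinearMap.opNorm_comp_le _ _
      _ ≤ 1 * 1 := by
        gcongr
        exact hS1.le
      _ = 1 := by norm_num
  -- perturbation size
  set t : ℝ := 1 - ‖ev Φ m x₀‖ with ht
  have htpos : 0 < t := by linarith
  set c : ℕ → 𝕜 := fun n => ev Φ n x₀ + (if n = m then (t : 𝕜) else 0) with hcdef
  have hc : ∀ n, ‖c n‖ ≤ 1 := by
    intro n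
    by_cases hn : n = m
    · subst hn
      simp only [hcdef, if_true]
      calc ‖ev Φ n x₀ + (t : 𝕜)‖ ≤ ‖ev Φ n x₀‖ + ‖(t : 𝕜)‖ := norm_add_le _ _
        _ = ‖ev Φ n x₀‖ + t := by rw [RCLike.norm_ofReal, abs_of_pos htpos]
        _ = 1 := by rw [ht]; ring
    · simp only [hcdef, if_neg hn, add_zero]
      exact (norm_ev_apply_le Φ n x₀).trans hx₀.le
  have hex : ∀ k : ℕ, ∃ x : X, ‖x‖ ≤ 1 ∧ ∀ n < k, ‖ev Φ n x - c n‖ < 1 / ((k : ℝ) + 1) :=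
    fun k => helly Φ k c hc _ (by positivity)
  choose x hx1 hxc using hex
  -- the limit functional values
  have hval : ∀ g : StrongDual 𝕜 X, ∑' n, (Φ g) n * c n = g x₀ + (t : 𝕜) * (Φ g) m := by
    intro g
    have h1 : HasSum (fun n => (Φ g) n * ev Φ n x₀) (g x₀) := hasSum_eval Φ g x₀
    have h2 : HasSum (fun n => (Φ g) n * (if n = m then (t : 𝕜) else 0)) ((Φ g) m * (t : 𝕜)) := by
      have h3 := hasSum_ite_eq m ((Φ g) m * (t : 𝕜))
      refine h3.congr_fun ?_ |> id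
      intro n
      by_cases hn : n = m
      · subst hn; simp
      · simp [hn]
    have h4 := h1.add h2
    have h5 : (fun n => (Φ g) n * c n) = fun n => (Φ g) n * ev Φ n x₀ +
        (Φ g) n * (if n = m then (t : 𝕜) else 0) := by
      funext n
      simp only [hcdef]; ring
    rw [h5, h4.tsum_eq]; ring
  -- compactness
  have hcomp : IsCompact (closure (S '' Metric.closedBall 0 1)) :=
    hSc.isCompact_closure_image_closedBall 1
  obtain ⟨y, -, σ, hσ, hσlim⟩ := hcomp.tendsto_subseq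
    (x := fun k => S (x k)) (fun k => subset_closure ⟨x k, by simpa using hx1 k, rfl⟩)
  have hfy : ∀ g : StrongDual 𝕜 Y, g y = g (S x₀) + (t : 𝕜) * (Φ (g.comp S)) m := by
    intro g
    have h1 : Tendsto (fun k => g (S (x (σ k)))) atTop (𝓝 (g y)) :=
      (g.continuous.tendsto y).comp hσlim
    have h2 := (tendsto_eval Φ c x hx1 hxc (g.comp S)).comp hσ.tendsto_atTop
    have h3 := tendsto_nhds_unique h1 h2
    rw [h3, hval]; rfl
  have hψy : ψ y = 1 := by rw [hfy, hcoord, hψ2']; ring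
  have hynorm : ‖y‖ = 1 := by
    refine le_antisymm ?_ ?_
    · refine le_of_tendsto hσlim.norm (Eventually.of_forall fun k => ?_)
      calc ‖S (x (σ k))‖ ≤ ‖S‖ * ‖x (σ k)‖ := S.le_opNorm _
        _ ≤ 1 * 1 := by
          gcongr
          · exact hS1.le
          · exact hx1 _
        _ = 1 := by norm_num
    · calc (1 : ℝ) = ‖ψ y‖ := by rw [hψy]; simp
        _ ≤ ‖ψ‖ * ‖y‖ := ψ.le_opNorm _
        _ ≤ 1 * ‖y‖ := by gcongr
        _ = ‖y‖ := one_mul _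
  -- range strong exposition
  obtain ⟨z, hz1, hz⟩ := hS
  obtain ⟨τ, hτ, a, ha, hτlim⟩ := hz (fun k => x (σ k)) (fun k => hx1 _)
    (by rw [hS1, ← hynorm]; exact hσlim.norm)
  obtain ⟨τ', hτ', b, hb, hτlim'⟩ := hz (fun _ => x₀) (fun _ => hx₀.le)
    (by rw [hS1, hSx₀]; exact tendsto_const_nhds)
  have hya : y = a • S z := tendsto_nhds_unique (hσlim.comp hτ.tendsto_atTop) hτlim
  have hxb : S x₀ = b • S z := tendsto_nhds_unique tendsto_const_nhds hτlim'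
  have ha0 : a ≠ 0 := by intro h; rw [h] at ha; simp at ha
  have hb0 : b ≠ 0 := by intro h; rw [h] at hb; simp at hb
  have hab : a = b := by
    have h1 : a * ψ (S z) = 1 := by rw [← smul_eq_mul, ← map_smul, ← hya, hψy]
    have h2 : b * ψ (S z) = 1 := by rw [← smul_eq_mul, ← map_smul, ← hxb, hψ2']
    have h3 : ψ (S z) ≠ 0 := by intro h; rw [h] at h1; simp at h1
    exact mul_right_cancel₀ h3 (h1.trans h2.symm)
  have hyx : y = S x₀ := by rw [hya, hxb, hab]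
  have h6 := hfy f
  rw [hyx] at h6
  have h7 : (t : 𝕜) * (Φ (f.comp S)) m = 0 := by
    have : f (S x₀) + 0 = f (S x₀) + (t : 𝕜) * (Φ (f.comp S)) m := by rw [add_zero]; exact h6
    exact (add_left_cancel this).symm
  rcases mul_eq_zero.mp h7 with h | h
  · exfalso
    have : t = 0 := by exact_mod_cast h
    linarith
  · exact h

/-- Core estimate, uniform in the scalar field. -/
lemma core (hX : IsL1Predual 𝕜 X) (hB : CompactBPBpRSE 𝕜 X Y) (ε₀ : ℝ) (hε₀ : 0 < ε₀) :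
    ∃ δ : ℝ, 0 < δ ∧ ∀ y₀ y₁ : Y, (∀ a b : 𝕜, ‖a‖ ≤ 1 → ‖b‖ ≤ 1 → ‖a • y₀ + b • y₁‖ ≤ 1) →
      1 - δ < ‖y₀‖ → ‖y₁‖ < ε₀ := by
  obtain ⟨Φ⟩ := hX
  set ε : ℝ := min ε₀ (1 / 2) with hε
  have hεpos : 0 < ε := lt_min hε₀ (by norm_num)
  obtain ⟨η, hη0, hηε, hη⟩ := hB ε hεpos
  have hη_half : η < 1 / 2 := hηε.trans_le (min_le_right _ _)
  refine ⟨η / 4, by positivity, fun y₀ y₁ hy hy₀ => ?_⟩
  have hy₁le : ‖y₁‖ ≤ 1 := by simpa using hy 0 1 (by simp) (by simp)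
  have hy₀le : ‖y₀‖ ≤ 1 := by simpa using hy 1 0 (by simp) (by simp)
  -- the operator
  let T₀ : X →L[𝕜] Y := (ev Φ 0).smulRight y₀ + (ev Φ 1).smulRight y₁
  have hT₀ : ∀ x, T₀ x = ev Φ 0 x • y₀ + ev Φ 1 x • y₁ := fun x => by simp [T₀]
  have hT₀le : ‖T₀‖ ≤ 1 := by
    refine ContinuousLinearMap.opNorm_le_bound _ zero_le_one fun x => ?_
    rw [one_mul]
    by_cases hx : x = 0
    · simp [hx]
    have hxn : 0 < ‖x‖ := norm_pos_iff.mpr hx
    have h1 := hy ((‖x‖⁻¹ : 𝕜) * ev Φ 0 x) ((‖x‖⁻¹ : 𝕜) * ev Φ 1 x) (by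
        rw [norm_mul, norm_inv, RCLike.norm_ofReal, abs_norm]
        rw [inv_mul_le_iff₀ hxn, mul_one]; exact norm_ev_apply_le Φ 0 x) (by
        rw [norm_mul, norm_inv, RCLike.norm_ofReal, abs_norm]
        rw [inv_mul_le_iff₀ hxn, mul_one]; exact norm_ev_apply_le Φ 1 x)
    have h2 : ((‖x‖⁻¹ : 𝕜) * ev Φ 0 x) • y₀ + ((‖x‖⁻¹ : 𝕜) * ev Φ 1 x) • y₁
        = (‖x‖⁻¹ : 𝕜) • T₀ x := by
      rw [hT₀, smul_add, smul_smul, smul_smul]
    rw [h2, norm_smul, norm_inv, RCLike.norm_ofReal, abs_norm, inv_mul_le_iff₀ hxn, mul_one] at h1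
    exact h1
  -- the near-norming point
  obtain ⟨z', hz'1, hz'2⟩ := helly Φ 2 (fun n => if n = 0 then (1 : 𝕜) else 0)
    (fun n => by split_ifs <;> simp) (η / 8) (by positivity)
  have hz0 : ‖ev Φ 0 z' - 1‖ < η / 8 := by simpa using hz'2 0 (by norm_num)
  have hz1 : ‖ev Φ 1 z'‖ < η / 8 := by simpa using hz'2 1 (by norm_num)
  have hz0' : 1 - η / 8 < ‖ev Φ 0 z'‖ := by
    have h1 : ‖(1 : 𝕜)‖ ≤ ‖ev Φ 0 z'‖ + ‖ev Φ 0 z' - 1‖ := by
      calc ‖(1 : 𝕜)‖ = ‖ev Φ 0 z' - (ev Φ 0 z' - 1)‖ := by congr 1; ring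
        _ ≤ _ := norm_sub_le _ _
    rw [norm_one] at h1
    linarith
  have hz'pos : 1 / 2 < ‖z'‖ := by
    have := norm_ev_apply_le Φ 0 z'
    linarith
  have hz'pos' : 0 < ‖z'‖ := by linarith
  have hT₀z' : 1 - η < ‖T₀ z'‖ := by
    rw [hT₀]
    have h1 : ‖ev Φ 0 z' • y₀‖ ≤ ‖ev Φ 0 z' • y₀ + ev Φ 1 z' • y₁‖ + ‖ev Φ 1 z' • y₁‖ := by
      calc ‖ev Φ 0 z' • y₀‖ = ‖(ev Φ 0 z' • y₀ + ev Φ 1 z' • y₁) - ev Φ 1 z' • y₁‖ := by
            congr 1; abel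
        _ ≤ _ := norm_sub_le _ _
    rw [norm_smul, norm_smul] at h1
    have h2 : ‖ev Φ 1 z'‖ * ‖y₁‖ ≤ η / 8 * 1 := by
      gcongr
    have h3 : (1 - η / 8) * (1 - η / 4) ≤ ‖ev Φ 0 z'‖ * ‖y₀‖ := by
      have : 0 ≤ 1 - η / 4 := by linarith
      have : 0 ≤ 1 - η / 8 := by linarith
      gcongr
    nlinarith
  have hT₀pos : 0 < ‖T₀‖ := by
    have h1 : ‖T₀ z'‖ ≤ ‖T₀‖ * ‖z'‖ := T₀.le_opNorm _
    by_contra h
    have h0 : ‖T₀‖ = 0 := le_antisymm (not_lt.mp h) (norm_nonneg _)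
    rw [h0, zero_mul] at h1
    linarith
  set s : ℝ := ‖T₀‖⁻¹ with hs
  have hs1 : 1 ≤ s := by rw [hs]; exact (one_le_inv₀ hT₀pos).mpr hT₀le
  let T : X →L[𝕜] Y := (s : 𝕜) • T₀
  have hTnorm : ‖T‖ = 1 := by
    simp only [T]
    rw [norm_smul, RCLike.norm_ofReal, abs_of_nonneg (by linarith), hs]
    exact inv_mul_cancel₀ hT₀pos.ne'
  have hT₀c : IsCompactOperator T₀ := by
    have h0 : ∀ (g : StrongDual 𝕜 X) (y : Y), IsCompactOperator (g.smulRight y) := by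
      intro g y
      have h1 : IsCompactOperator (ContinuousLinearMap.toSpanSingleton 𝕜 y : 𝕜 →L[𝕜] Y) :=
        isCompactOperator_of_locallyCompactSpace_rng
          (ContinuousLinearMap.toSpanSingleton 𝕜 y : 𝕜 →L[𝕜] Y)
      have h2 := h1.comp_clm g
      exact h2
    exact (h0 _ _).add (h0 _ _)
  have hTc : IsCompactOperator T := hT₀c.smul (s : 𝕜)
  set z : X := ((‖z'‖⁻¹ : ℝ) : 𝕜) • z' with hzdef
  have hz : ‖z‖ = 1 := by
    rw [hzdef, norm_smul, RCLike.norm_ofReal, abs_of_nonneg (by positivity)]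
    exact inv_mul_cancel₀ hz'pos'.ne'
  have hTz : 1 - η < ‖T z‖ := by
    have h1 : ‖T z‖ = s * (‖z'‖⁻¹ * ‖T₀ z'‖) := by
      simp only [T, hzdef, map_smul, smul_apply]
      rw [norm_smul, norm_smul, RCLike.norm_ofReal, RCLike.norm_ofReal,
        abs_of_nonneg (by positivity : (0 : ℝ) ≤ ‖z'‖⁻¹), abs_of_nonneg (by linarith : (0 : ℝ) ≤ s)]
      ring
    rw [h1]
    have h2 : 1 ≤ ‖z'‖⁻¹ := (one_le_inv₀ hz'pos').mpr hz'1
    have h3 : ‖T₀ z'‖ ≤ ‖z'‖⁻¹ * ‖T₀ z'‖ := le_mul_of_one_le_left (norm_nonneg _) h2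
    have h4 : ‖z'‖⁻¹ * ‖T₀ z'‖ ≤ s * (‖z'‖⁻¹ * ‖T₀ z'‖) :=
      le_mul_of_one_le_left (by positivity) hs1
    linarith
  have hez : ‖ev Φ 1 z‖ < η / 4 := by
    rw [hzdef, map_smul, norm_smul, RCLike.norm_ofReal, abs_of_nonneg (by positivity)]
    rw [inv_mul_lt_iff₀ hz'pos']
    nlinarith
  obtain ⟨S, hSR, hSc, x₀, hx₀, hS1, hSx₀, hST, hzx⟩ := hη T hTc hTnorm z hz hTz
  have hex₀ : ‖ev Φ 1 x₀‖ < 1 := by
    have h1 : ‖ev Φ 1 x₀‖ ≤ ‖ev Φ 1 z‖ + ‖ev Φ 1 (z - x₀)‖ := by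
      calc ‖ev Φ 1 x₀‖ = ‖ev Φ 1 z - ev Φ 1 (z - x₀)‖ := by rw [map_sub]; congr 1; ring
        _ ≤ _ := norm_sub_le _ _
    have h2 := norm_ev_apply_le Φ 1 (z - x₀)
    have h3 : ε ≤ 1 / 2 := min_le_right _ _
    linarith
  -- conclusion
  obtain ⟨f, hf1, hf2⟩ := exists_dual_vector'' 𝕜 y₁
  have hS0 := key Φ S hSR hSc hS1 x₀ hx₀ hSx₀ 1 hex₀ f
  have hT1 : (Φ (f.comp T)) 1 = (s : 𝕜) * (‖y₁‖ : 𝕜) := by
    have h1 : f.comp T = ((s : 𝕜) * f y₀) • ev Φ 0 + ((s : 𝕜) * f y₁) • ev Φ 1 := by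
      ext x
      simp only [T, ContinuousLinearMap.comp_apply, smul_apply, hT₀,
        map_smul, map_add, smul_eq_mul, add_apply]
      ring
    rw [h1, map_add, map_smul, map_smul, Phi_ev, Phi_ev, hf2]
    have h2 : (lp.single (E := fun _ : ℕ => 𝕜) 1 0 (1 : 𝕜)) 1 = 0 := by
      simp
    have h3 : (lp.single (E := fun _ : ℕ => 𝕜) 1 1 (1 : 𝕜)) 1 = 1 := by
      simp
    rw [lp.coeFn_add, Pi.add_apply, lp.coeFn_smul, lp.coeFn_smul, Pi.smul_apply, Pi.smul_apply,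
      h2, h3]
    simp
  have h8 : ‖(Φ (f.comp T)) 1‖ ≤ ‖T - S‖ := by
    have h1 : (Φ (f.comp T)) 1 = (Φ (f.comp (T - S))) 1 := by
      have : f.comp (T - S) = f.comp T - f.comp S := by ext x; simp
      rw [this, map_sub, lp.coeFn_sub, Pi.sub_apply, hS0, sub_zero]
    rw [h1]
    calc ‖(Φ (f.comp (T - S))) 1‖ ≤ ‖Φ (f.comp (T - S))‖ := lp.norm_apply_le_norm (by simp) _ _
      _ = ‖f.comp (T - S)‖ := Φ.norm_map _
      _ ≤ ‖f‖ * ‖T - S‖ := ContinuousLinearMap.opNorm_comp_le _ _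
      _ ≤ 1 * ‖T - S‖ := by gcongr
      _ = _ := one_mul _
  rw [hT1, norm_mul, RCLike.norm_ofReal, RCLike.norm_ofReal, abs_norm,
    abs_of_nonneg (by linarith : (0 : ℝ) ≤ s), norm_sub_rev] at h8
  have h9 : ‖y₁‖ ≤ s * ‖y₁‖ := le_mul_of_one_le_left (norm_nonneg _) hs1
  have h10 : ε ≤ ε₀ := min_le_left _ _
  linarith

end Core

/-- A complex number of modulus at most one is the average of two unimodular numbers. -/
lemma exists_avg (a : ℂ) (ha : ‖a‖ ≤ 1) : ∃ u v : ℂ, ‖u‖ = 1 ∧ ‖v‖ = 1 ∧ a = (u + v) / 2 := by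
  have hr : 0 ≤ 1 - ‖a‖ ^ 2 := by nlinarith [norm_nonneg a]
  set q : ℝ := Real.sqrt (1 - ‖a‖ ^ 2) with hq
  have hq2 : q ^ 2 = 1 - ‖a‖ ^ 2 := Real.sq_sqrt hr
  obtain ⟨w, hw, haw⟩ : ∃ w : ℂ, ‖w‖ = 1 ∧ a = (‖a‖ : ℂ) * w := by
    by_cases h : a = 0
    · exact ⟨1, by simp, by simp [h]⟩
    · have hn : ‖a‖ ≠ 0 := norm_ne_zero_iff.mpr h
      refine ⟨a / ‖a‖, by simp [hn], ?_⟩
      have : (‖a‖ : ℂ) ≠ 0 := by exact_mod_cast hn
      field_simp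
  have h1 : ∀ σ : ℝ, σ ^ 2 = 1 → ‖((‖a‖ : ℂ) + (σ * q : ℝ) * Complex.I) * w‖ = 1 := by
    intro σ hσ
    rw [norm_mul, hw, mul_one]
    have h2 : ‖(‖a‖ : ℂ) + (σ * q : ℝ) * Complex.I‖ ^ 2 = 1 := by
      rw [← Complex.normSq_eq_norm_sq, Complex.normSq_add_mul_I]
      nlinarith
    have h3 := norm_nonneg ((‖a‖ : ℂ) + (σ * q : ℝ) * Complex.I)
    nlinarith
  refine ⟨((‖a‖ : ℂ) + (1 * q : ℝ) * Complex.I) * w,
    ((‖a‖ : ℂ) + ((-1) * q : ℝ) * Complex.I) * w, h1 1 (by norm_num), h1 (-1) (by norm_num), ?_⟩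
  conv_lhs => rw [haw]
  push_cast
  ring

lemma ball_bound {Y : Type*} [NormedAddCommGroup Y] [NormedSpace ℂ Y] (y₀ y₁ : Y)
    (h : ∀ w : ℂ, ‖w‖ = 1 → ‖y₀ + w • y₁‖ ≤ 1) (a b : ℂ) (ha : ‖a‖ ≤ 1) (hb : ‖b‖ ≤ 1) :
    ‖a • y₀ + b • y₁‖ ≤ 1 := by
  have h1 : ∀ u v : ℂ, ‖u‖ = 1 → ‖v‖ = 1 → ‖u • y₀ + v • y₁‖ ≤ 1 := by
    intro u v hu hv
    have hu0 : u ≠ 0 := by intro h; rw [h] at hu; simp at hu
    have h2 : u • y₀ + v • y₁ = u • (y₀ + (u⁻¹ * v) • y₁) := by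
      rw [smul_add, smul_smul, ← mul_assoc, mul_inv_cancel₀ hu0, one_mul]
    rw [h2, norm_smul, hu, one_mul]
    exact h _ (by rw [norm_mul, norm_inv, hu, hv]; norm_num)
  obtain ⟨u, u', hu, hu', rfl⟩ := exists_avg a ha
  obtain ⟨v, v', hv, hv', rfl⟩ := exists_avg b hb
  have h3 : ((u + u') / 2) • y₀ + ((v + v') / 2) • y₁
      = (1 / 2 : ℂ) • (u • y₀ + v • y₁) + (1 / 2 : ℂ) • (u' • y₀ + v' • y₁) := by
    module
  rw [h3]
  calc _ ≤ ‖(1 / 2 : ℂ) • (u • y₀ + v • y₁)‖ + ‖(1 / 2 : ℂ) • (u' • y₀ + v' • y₁)‖ :=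
        norm_add_le _ _
    _ = 1 / 2 * ‖u • y₀ + v • y₁‖ + 1 / 2 * ‖u' • y₀ + v' • y₁‖ := by
      rw [norm_smul, norm_smul]; norm_num
    _ ≤ 1 / 2 * 1 + 1 / 2 * 1 := by
      gcongr
      · exact h1 u v hu hv
      · exact h1 u' v' hu' hv'
    _ = 1 := by norm_num

/-- **Main theorem** (positive answer to the question, for both scalar fields). If `X` is an
`ℓ₁`-predual and `𝒦(X, Y)` has the BPBp-RSE, then `Y` is uniformly convex in the real case and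
`ℂ`-uniformly convex in the complex case. -/
theorem result :
    (∀ (X : Type u) (Y : Type v) [NormedAddCommGroup X] [NormedSpace ℝ X] [CompleteSpace X]
      [NormedAddCommGroup Y] [NormedSpace ℝ Y] [CompleteSpace Y],
      IsL1Predual ℝ X → CompactBPBpRSE ℝ X Y → UniformConvexSpace Y) ∧
    (∀ (X : Type u) (Y : Type v) [NormedAddCommGroup X] [NormedSpace ℂ X] [CompleteSpace X]
      [NormedAddCommGroup Y] [NormedSpace ℂ Y] [CompleteSpace Y],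
      IsL1Predual ℂ X → CompactBPBpRSE ℂ X Y → CUniformlyConvex Y) := by
  constructor
  · intro X Y _ _ _ _ _ _ hX hB
    constructor
    intro ε hε
    obtain ⟨δ, hδ, h⟩ := core (𝕜 := ℝ) hX hB (ε / 2) (by positivity)
    refine ⟨2 * δ, by positivity, fun x hx y hy hxy => ?_⟩
    by_contra hcon
    push Not at hcon
    have h1 := h ((1 / 2 : ℝ) • (x + y)) ((1 / 2 : ℝ) • (x - y)) ?_ ?_
    · rw [norm_smul] at h1
      norm_num at h1
      linarith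
    · intro a b ha hb
      rw [Real.norm_eq_abs] at ha hb
      have h2 : a • (1 / 2 : ℝ) • (x + y) + b • (1 / 2 : ℝ) • (x - y)
          = ((a + b) / 2) • x + ((a - b) / 2) • y := by module
      rw [h2]
      calc _ ≤ ‖((a + b) / 2) • x‖ + ‖((a - b) / 2) • y‖ := norm_add_le _ _
        _ = |(a + b) / 2| + |(a - b) / 2| := by
          rw [norm_smul, norm_smul, hx, hy, Real.norm_eq_abs, Real.norm_eq_abs]; ring
        _ ≤ 1 := by
          rw [abs_le] at ha hb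
          rcases abs_cases ((a + b) / 2) with h3 | h3 <;>
          rcases abs_cases ((a - b) / 2) with h4 | h4 <;> linarith [h3.1, h4.1, ha.1, hb.1]
    · rw [norm_smul]
      norm_num
      linarith
  · intro X Y _ _ _ _ _ _ hX hB ε hε
    obtain ⟨δ, hδ, h⟩ := core (𝕜 := ℂ) hX hB ε hε
    refine ⟨δ / 2, by positivity, fun y₀ y₁ hy hlt => ?_⟩
    by_contra hcon
    push Not at hcon
    have h1 := h y₀ y₁ (ball_bound y₀ y₁ hy) (by linarith)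
    linarith

end Pool.Agent.Results.MP_88a444_an.FullAnswer
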